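import Mathlib

/-!
A finite 3-group of class 3 in which every element commutes with its endomorphic images
(MP_018505_al): the data and the three facts on the data used in the proof.

`V = F_3^12` with basis `x_0, ..., x_11` and the linear map `P : V → Λ² V`,
`P(x_i) = x_a ∧ x_b + x_c ∧ x_d` with `(a, b) = e1 i`, `(c, d) = e2 i`.
-/

namespace Pool.Agent.EGrp

def e1 : Fin 12 → Fin 12 × Fin 12 :=
  ![(7, 1), (5, 2), (5, 3), (8, 4), (8, 5), (9, 6), (10, 7), (8, 6), (9, 1), (10, 3), (11, 2), (10, 0)]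

def e2 : Fin 12 → Fin 12 × Fin 12 :=
  ![(4, 2), (4, 3), (9, 8), (11, 10), (2, 0), (8, 0), (11, 5), (4, 1), (11, 7), (7, 6), (6, 0), (3, 1)]

/-- The coefficient of `x_j ∧ x_l`, `j > l`, in `P(x_i)`. -/
def P (i j l : Fin 12) : ℤ :=
  (if (j, l) = e1 i then 1 else 0) + (if (j, l) = e2 i then 1 else 0)

/-- The coordinate `p > q > r` of `c ∧ v`, where `c ∈ Λ² V` has the coordinates `c j l`, `j > l`. -/
def wd (c : Fin 12 → Fin 12 → ZMod 3) (v : Fin 12 → ZMod 3) (p q r : Fin 12) : ZMod 3 :=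
  c p q * v r - c p r * v q + c q r * v p

/-- The coordinate `p > q > r` of `T(Ψ) = ∑ Ψ_jl P(x_j) ∧ x_l`. -/
def T (Ψ : Fin 12 → Fin 12 → ZMod 3) (p q r : Fin 12) : ZMod 3 :=
  ∑ m, (Ψ m r * (P m p q : ZMod 3) - Ψ m q * (P m p r : ZMod 3) + Ψ m p * (P m q r : ZMod 3))

/-- `T` is injective. -/
def H1 : Prop :=
  ∀ Ψ : Fin 12 → Fin 12 → ZMod 3, (∀ p q r, r < q → q < p → T Ψ p q r = 0) → ∀ i j, Ψ i j = 0

/-- The only linear maps `A : V → V` (`A x_i = a_i`) with `P ∘ A = Λ² A ∘ P` are `0` and `1`. -/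
def H2 : Prop :=
  ∀ a : Fin 12 → Fin 12 → ZMod 3,
    (∀ i j l, l < j → ∑ m, a i m * (P m j l : ZMod 3) =
      ∑ p, ∑ q, (P i p q : ZMod 3) * (a p j * a q l - a p l * a q j)) →
    (∀ i j, a i j = 0) ∨ ∀ i j, a i j = if i = j then 1 else 0

/-- The only linear maps `C : V → Λ² V` with `Q ∘ C = D_C ∘ P` are inner. -/
def H3 : Prop :=
  ∀ Ψ : Fin 12 → Fin 12 → Fin 12 → ZMod 3,
    (∀ i p q r, r < q → q < p → T (Ψ i) p q r =
      ∑ s, ∑ t, (P i s t : ZMod 3) *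
        (wd (fun j l => Ψ s j l - Ψ s l j) (Pi.single t 1) p q r -
          wd (fun j l => Ψ t j l - Ψ t l j) (Pi.single s 1) p q r)) →
    ∃ g : Fin 12 → ZMod 3, ∀ i j l, l < j → Ψ i j l - Ψ i l j =
      (if i = j then g l else 0) - (if i = l then g j else 0)

end Pool.Agent.EGrp
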